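import Pool.Agent.Helper33.Iso.Goals

/-!
# Packet LIFTBD: lifts of cubes whose boundary goes to one point
-/

set_option autoImplicit false

open Topology unitInterval
open Pool.Agent.Helper33.Iso

namespace Pool.Agent.Helper26.Iso

universe u v

theorem along {A : Type u} {B : Type v} [TopologicalSpace A] [TopologicalSpace B]
    {q : A → B} (hq : IsCoveringMap q) {M : ℕ} (L : C(Fin M → I, A)) (b : B)
    (hL : ∀ x ∈ Cube.boundary (Fin M), q (L x) = b)
    (P : I → Fin M → I) (hP : Continuous P) (hb : ∀ t, P t ∈ Cube.boundary (Fin M)) :
    L (P 0) = L (P 1) := by
  have h1 : (fun t : I => L (P t)) = fun _ => L (P 0) := by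
    refine hq.eq_of_comp_eq (g₁ := fun t : I => L (P t)) (g₂ := fun _ => L (P 0))
      (L.continuous.comp hP) continuous_const ?_ 0 rfl
    funext t
    change q (L (P t)) = q (L (P 0))
    rw [hL _ (hb t), hL _ (hb 0)]
  exact (congrFun h1 1).symm

theorem gLIFTBD : Pool.Agent.Helper33.Iso.LIFTBD.{u, v} := by
  intro A B _ _ q hq N L hL x hx
  obtain ⟨i, hi⟩ := hx
  -- first path: contract all coordinates but `i`
  have step1 : L x = L (fun j => if j = i then x i else 0) := by
    have h := along hq L (q (L 0)) hL (fun t j => if j = i then x i else σ t * x j)
      (by
        apply continuous_pi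
        intro j
        by_cases hj : j = i
        · simp only [hj, if_true]
          exact continuous_const
        · simp only [hj, if_false]
          exact (continuous_symm).mul continuous_const)
      (by
        intro t
        refine ⟨i, ?_⟩
        simpa using hi)
    have e0 : (fun j => if j = i then x i else σ (0 : I) * x j) = x := by
      funext j
      by_cases hj : j = i
      · simp [hj]
      · simp [hj]
    have e1 : (fun j => if j = i then x i else σ (1 : I) * x j)
        = (fun j => if j = i then x i else 0) := by
      funext j
      by_cases hj : j = i
      · simp [hj]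
      · simp [hj]
    change L (fun j => if j = i then x i else σ (0 : I) * x j) = L (fun j => if j = i then x i else σ (1 : I) * x j) at h
    rw [e0, e1] at h
    exact h
  rcases hi with h0 | h1
  · rw [step1, h0]
    have e : (fun j : Fin (N + 2) => if j = i then (0 : I) else 0) = 0 := by
      funext j
      simp
    rw [e]
  · rw [step1, h1]
    obtain ⟨k, hk⟩ := exists_ne i
    have h := along hq L (q (L 0)) hL (fun t j => if j = i then σ t else 0)
      (by
        apply continuous_pi
        intro j
        by_cases hj : j = i
        · simp only [hj, if_true]
          exact continuous_symm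
        · simp only [hj, if_false]
          exact continuous_const)
      (by
        intro t
        refine ⟨k, Or.inl ?_⟩
        simp [hk])
    have e0 : (fun j : Fin (N + 2) => if j = i then σ (0 : I) else 0)
        = (fun j => if j = i then (1 : I) else 0) := by
      funext j
      by_cases hj : j = i
      · simp [hj]
      · simp [hj]
    have e1 : (fun j : Fin (N + 2) => if j = i then σ (1 : I) else 0) = 0 := by
      funext j
      by_cases hj : j = i
      · simp [hj]
      · simp [hj]
    rw [e0, e1] at h
    exact h

end Pool.Agent.Helper26.Iso
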